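import Pool.Agent.U506.RT.S

/-!
# Injectivity of the Radon transform in the plane when the projections are tempered

Let `f` be continuous on `ℝ × ℝ`, and write `x · θ = x₁ cos θ + x₂ sin θ`. For a function `g ≥ 0` and a direction `θ` consider

(a) `g x / (1 + |x · θ|) ^ k` is integrable over the plane for some natural number `k`;
(b) for some natural number `k` the integral of `g x / (1 + |x · α|) ^ k` over the plane is integrable in `α` over a
neighbourhood of `θ`.

(1) Suppose that for every `θ` and almost every `p` the function `f` is integrable on the line `x · θ = p` with integral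
zero, and that for every `θ` the positive part or the negative part of `f` satisfies (a) or (b). Then `f = 0`.

(2) Suppose that for every `θ` the function `|f|` satisfies (a) or (b), and that for almost every `θ` and almost every `p` the
integral of `f` over the line `x · θ = p` is zero. Then `f = 0`.

Nothing is uniform in `θ`: in (a) the sign, the exponent and the integral may depend on `θ` in any way, and there is no
pointwise bound on `f`. By Fubini's theorem (a) for `|f|` says that `∫ (∫ over the line (θ, p) of |f|) / (1 + |p|) ^ k dp` is
finite. Condition (b) for `|f|` and all directions is equivalent to the integrability of `f x / (1 + |x|)`, the known case.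

Proof of (2). For almost every direction the integrals of `f` against high powers of the Cauchy kernel in `x · θ` vanish. After
a rotation (a) holds for both coordinate directions. Let `B = σ (x₂ - z₂)`, `A = x₁ - z₁`. The integrals `L_K(t)` of
`f / (B ^ K (A + t B))` are continuous functions of the slope `t > 0`, and `r ^ (-K)` times a difference of order `K` and
step `r` of `L_K` is bounded by the integral of `|f| / |A + a B| ^ K`, for EVERY `a` in the interval of the difference, up to a
constant. So the differences of order `K` vanish near the slopes of type (b) by dominated convergence in the slope, and by the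
Baire category theorem there is no closed set of other slopes: a portion of it would have a common exponent and a common bound.
The exponents are compared by the relation between `L_(K + 1)` and `L_K`: the derivative of `L_(K + 1)` in `t` is minus the
derivative of `L_K` in `z₁`. So all differences of order `K` of `L_K` vanish, and `L_K = 0` since it tends to `0` at infinity.
The Poisson kernel in each variable gives `f = 0`. Part (1) follows, since on a line with integral zero the integral of `|f|`
is twice the integral of either part.
-/

set_option autoImplicit false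

namespace Pool.Agent.Results.MP_9de3af_an.TemperedProjections

open MeasureTheory

/-- Injectivity of the Radon transform on continuous functions with tempered projections. -/
theorem result :
    (∀ f : ℝ × ℝ → ℝ, Continuous f →
      (∀ θ : ℝ, ∀ᵐ p : ℝ,
        Integrable
          (fun t : ℝ => f (p * Real.cos θ - t * Real.sin θ, p * Real.sin θ + t * Real.cos θ)) ∧
        ∫ t : ℝ, f (p * Real.cos θ - t * Real.sin θ, p * Real.sin θ + t * Real.cos θ) = 0) →
      (∀ θ : ℝ, ∃ σ : ℝ, (σ = 1 ∨ σ = -1) ∧
        ((∃ k : ℕ, Integrable
            (fun x : ℝ × ℝ => max (σ * f x) 0 / (1 + |x.1 * Real.cos θ + x.2 * Real.sin θ|) ^ k)) ∨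
          (∃ k : ℕ, ∃ δ > 0, ∫⁻ α in Set.Ioo (θ - δ) (θ + δ), ∫⁻ x : ℝ × ℝ,
            ‖max (σ * f x) 0 / (1 + |x.1 * Real.cos α + x.2 * Real.sin α|) ^ k‖ₑ < ⊤))) →
      f = 0) ∧
    (∀ f : ℝ × ℝ → ℝ, Continuous f →
      (∀ᵐ θ : ℝ, ∀ᵐ p : ℝ,
        ∫ t : ℝ, f (p * Real.cos θ - t * Real.sin θ, p * Real.sin θ + t * Real.cos θ) = 0) →
      (∀ θ : ℝ,
        (∃ k : ℕ, Integrable
          (fun x : ℝ × ℝ => f x / (1 + |x.1 * Real.cos θ + x.2 * Real.sin θ|) ^ k)) ∨
        (∃ k : ℕ, ∃ δ > 0, ∫⁻ α in Set.Ioo (θ - δ) (θ + δ), ∫⁻ x : ℝ × ℝ,
          ‖f x / (1 + |x.1 * Real.cos α + x.2 * Real.sin α|) ^ k‖ₑ < ⊤)) →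
      f = 0) :=
  ⟨fun f hf hR hint => U506.RT.radon_onesided f hf hR hint,
    fun f hf hR hint => U506.RT.radon_final f hf hint hR⟩

end Pool.Agent.Results.MP_9de3af_an.TemperedProjections
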